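import Mathlib

namespace Pool.Agent.X62.SR

/-! Return chain: state `i` goes to `i+1` or back to `0`. -/

noncomputable section

/-- tail sums -/
def Qs (n : ℕ) (q : ℕ → ℝ) (k : ℕ) : ℝ := ∑ j ∈ Finset.Ico k n, q j

/-- the return chain with return weights `q` -/
def chainA (n : ℕ) (q : ℕ → ℝ) : Matrix (Fin n) (Fin n) ℝ := fun i j =>
  (if (j : ℕ) = (i : ℕ) + 1 then Qs n q (i + 1) / Qs n q i else 0) +
  (if (j : ℕ) = 0 then q i / Qs n q i else 0)

lemma Qs_succ {n : ℕ} {q : ℕ → ℝ} {k : ℕ} (hk : k < n) :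
    Qs n q k = q k + Qs n q (k + 1) := by
  unfold Qs
  rw [Finset.sum_eq_sum_Ico_succ_bot hk]

lemma Qs_top {n : ℕ} {q : ℕ → ℝ} : Qs n q n = 0 := by simp [Qs]

lemma Qs_nonneg {n : ℕ} {q : ℕ → ℝ} (hq : ∀ k < n, 0 ≤ q k) (k : ℕ) : 0 ≤ Qs n q k := by
  unfold Qs
  apply Finset.sum_nonneg
  intro j hj
  exact hq j (Finset.mem_Ico.1 hj).2

lemma Qs_pos {n : ℕ} {q : ℕ → ℝ} (hn : 0 < n) (hq : ∀ k < n, 0 ≤ q k) (hl : 0 < q (n - 1))
    {k : ℕ} (hk : k < n) : 0 < Qs n q k := by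
  unfold Qs
  have : q (n-1) ≤ ∑ j ∈ Finset.Ico k n, q j := by
    apply Finset.single_le_sum (f := q)
    · intro j hj
      exact hq j (Finset.mem_Ico.1 hj).2
    · rw [Finset.mem_Ico]; omega
  linarith

lemma sum_ite_val {n : ℕ} {R : Type*} [AddCommMonoid R] (a : ℕ) (f : ℕ → R) :
    (∑ j : Fin n, if (j : ℕ) = a then f j else 0) = if a < n then f a else 0 := by
  rw [Fin.sum_univ_eq_sum_range (fun j => if j = a then f j else 0) n]
  rw [Finset.sum_ite_eq']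
  simp

lemma chainA_nonneg {n : ℕ} {q : ℕ → ℝ} (hq : ∀ k < n, 0 ≤ q k) (i j : Fin n) :
    0 ≤ chainA n q i j := by
  unfold chainA
  have h1 := Qs_nonneg hq (i : ℕ)
  have h2 := Qs_nonneg hq ((i : ℕ) + 1)
  have h3 := hq i i.2
  apply add_nonneg
  · split_ifs
    · positivity
    · exact le_rfl
  · split_ifs
    · positivity
    · exact le_rfl

lemma chainA_row {n : ℕ} {q : ℕ → ℝ} (hn : 0 < n) (hq : ∀ k < n, 0 ≤ q k) (hl : 0 < q (n - 1))
    (i : Fin n) : ∑ j, chainA n q i j = 1 := by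
  unfold chainA
  rw [Finset.sum_add_distrib,
    sum_ite_val ((i : ℕ) + 1) (fun _ => Qs n q (i + 1) / Qs n q i),
    sum_ite_val 0 (fun _ => q i / Qs n q i)]
  have hp := Qs_pos hn hq hl i.2
  have hs := Qs_succ (q := q) i.2
  rw [if_pos hn]
  by_cases h : (i : ℕ) + 1 < n
  · rw [if_pos h, ← add_div, div_eq_one_iff_eq hp.ne']
    linarith
  · have : (i : ℕ) + 1 = n := by omega
    rw [if_neg h, zero_add, div_eq_one_iff_eq hp.ne', hs, this, Qs_top, add_zero]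

/-- weighted entries of a vector -/
def ww (n : ℕ) (q : ℕ → ℝ) (v : Fin n → ℂ) (k : ℕ) : ℂ :=
  if h : k < n then (Qs n q k : ℂ) * v ⟨k, h⟩ else 0

lemma row_eq {n : ℕ} {q : ℕ → ℝ} (E : Fin n → ℝ) (hn : 0 < n) (hq : ∀ k < n, 0 ≤ q k)
    (hl : 0 < q (n - 1)) (h1 : Qs n q 0 = 1) (μ : ℂ) (v : Fin n → ℂ)
    (hv : Matrix.mulVec ((chainA n q - Matrix.diagonal E).map (algebraMap ℝ ℂ)) v = μ • v)
    (k : ℕ) (hk : k < n) :
    ww n q v (k + 1) = (μ + (E ⟨k, hk⟩ : ℂ)) * ww n q v k - (q k : ℂ) * ww n q v 0 := by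
  have h := congrFun hv ⟨k, hk⟩
  have hp := Qs_pos hn hq hl hk
  have hpc : (Qs n q k : ℂ) ≠ 0 := by exact_mod_cast hp.ne'
  simp only [Matrix.mulVec, dotProduct, Matrix.map_apply, Matrix.sub_apply, Pi.smul_apply,
    smul_eq_mul, Complex.coe_algebraMap] at h
  have h' : (∑ j : Fin n, ((chainA n q ⟨k, hk⟩ j : ℝ) : ℂ) * v j) - (E ⟨k, hk⟩ : ℂ) * v ⟨k, hk⟩
      = μ * v ⟨k, hk⟩ := by
    rw [← h]
    have : ∀ j : Fin n, ((chainA n q ⟨k, hk⟩ j - Matrix.diagonal E ⟨k, hk⟩ j : ℝ) : ℂ) * v j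
        = ((chainA n q ⟨k, hk⟩ j : ℝ) : ℂ) * v j
          - (if (⟨k, hk⟩ : Fin n) = j then (E ⟨k, hk⟩ : ℂ) * v j else 0) := by
      intro j
      rw [Matrix.diagonal_apply]
      split_ifs with hj
      · push_cast; ring
      · push_cast; ring
    rw [Finset.sum_congr rfl (fun j _ => this j), Finset.sum_sub_distrib, Finset.sum_ite_eq]
    simp
  have h2 : (∑ j : Fin n, ((chainA n q ⟨k, hk⟩ j : ℝ) : ℂ) * v j)
      = ((Qs n q (k+1) / Qs n q k : ℝ) : ℂ) * (if h : k + 1 < n then v ⟨k+1, h⟩ else 0)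
        + ((q k / Qs n q k : ℝ) : ℂ) * v ⟨0, hn⟩ := by
    have e1 : ∀ j : Fin n, ((chainA n q ⟨k, hk⟩ j : ℝ) : ℂ) * v j
        = (if (j : ℕ) = k + 1 then ((Qs n q (k+1) / Qs n q k : ℝ) : ℂ) *
            (if h : (j : ℕ) < n then v ⟨j, h⟩ else 0) else 0)
          + (if (j : ℕ) = 0 then ((q k / Qs n q k : ℝ) : ℂ) *
            (if h : (j : ℕ) < n then v ⟨j, h⟩ else 0) else 0) := by
      intro j
      have hj : (if h : (j : ℕ) < n then v ⟨j, h⟩ else 0) = v j := by simp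
      rw [hj]
      unfold chainA
      simp only
      split_ifs <;> push_cast <;> ring
    rw [Finset.sum_congr rfl (fun j _ => e1 j), Finset.sum_add_distrib,
      sum_ite_val (k+1) (fun m => ((Qs n q (k+1) / Qs n q k : ℝ) : ℂ) *
            (if h : m < n then v ⟨m, h⟩ else 0)),
      sum_ite_val 0 (fun m => ((q k / Qs n q k : ℝ) : ℂ) *
            (if h : m < n then v ⟨m, h⟩ else 0))]
    rw [if_pos hn, dif_pos hn]
    congr 1
    split_ifs <;> simp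
  rw [h2] at h'
  have w0 : ww n q v 0 = v ⟨0, hn⟩ := by simp [ww, hn, h1]
  have wk : ww n q v k = (Qs n q k : ℂ) * v ⟨k, hk⟩ := by simp [ww, hk]
  have wk1 : ww n q v (k+1) = (Qs n q (k+1) : ℂ) * (if h : k + 1 < n then v ⟨k+1, h⟩ else 0) := by
    unfold ww
    split_ifs <;> simp
  rw [w0, wk, wk1]
  push_cast at h'
  set V := (if h : k + 1 < n then v ⟨k+1, h⟩ else 0)
  have h3 : (Qs n q k : ℂ) * ((Qs n q (k+1) : ℂ) / (Qs n q k : ℂ) * V
      + (q k : ℂ) / (Qs n q k : ℂ) * v ⟨0, hn⟩) = (Qs n q (k+1) : ℂ) * V + (q k : ℂ) * v ⟨0, hn⟩ := by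
    field_simp
  linear_combination (-1 : ℂ) * h3 + (Qs n q k : ℂ) * h'

lemma ww_zero_imp {n : ℕ} {q : ℕ → ℝ} (hn : 0 < n) (hq : ∀ k < n, 0 ≤ q k)
    (hl : 0 < q (n - 1)) (v : Fin n → ℂ) (h : ∀ k < n, ww n q v k = 0) : v = 0 := by
  funext i
  have := h i i.2
  unfold ww at this
  rw [dif_pos i.2] at this
  have hp := Qs_pos hn hq hl i.2
  have hpc : (Qs n q i : ℂ) ≠ 0 := by exact_mod_cast hp.ne'
  simpa [hpc] using this

/-! integer coefficient lists -/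

def ev (l : List ℤ) (x : ℂ) : ℂ := l.foldr (fun a s => (a : ℂ) + x * s) 0

end

def addL : List ℤ → List ℤ → List ℤ
  | [], l => l
  | a :: l, [] => a :: l
  | a :: l, b :: m => (a + b) :: addL l m

def scaleL (c : ℤ) (l : List ℤ) : List ℤ := l.map (fun a => c * a)

def mulL : List ℤ → List ℤ → List ℤ
  | [], _ => []
  | a :: l, m => addL (scaleL a m) (0 :: mulL l m)

def stepL (u z : ℤ) (c : List ℤ) : List ℤ := addL (mulL [-u, 1] c) [-z]

lemma ev_nil (x : ℂ) : ev [] x = 0 := rfl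
lemma ev_cons (a : ℤ) (l : List ℤ) (x : ℂ) : ev (a :: l) x = a + x * ev l x := rfl

lemma ev_addL (l m : List ℤ) (x : ℂ) : ev (addL l m) x = ev l x + ev m x := by
  induction l generalizing m with
  | nil => simp [addL, ev_nil]
  | cons a l ih =>
    cases m with
    | nil => simp [addL, ev_nil]
    | cons b m => rw [addL, ev_cons, ev_cons, ev_cons, ih]; push_cast; ring

lemma ev_scaleL (c : ℤ) (l : List ℤ) (x : ℂ) : ev (scaleL c l) x = c * ev l x := by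
  induction l with
  | nil => simp [scaleL, ev_nil]
  | cons a l ih =>
    have : scaleL c (a :: l) = (c * a) :: scaleL c l := rfl
    rw [this, ev_cons, ev_cons, ih]; push_cast; ring

lemma ev_mulL (l m : List ℤ) (x : ℂ) : ev (mulL l m) x = ev l x * ev m x := by
  induction l with
  | nil => simp [mulL, ev_nil]
  | cons a l ih => rw [mulL, ev_addL, ev_scaleL, ev_cons, ev_cons, ih]; push_cast; ring

lemma ev_stepL (u z : ℤ) (c : List ℤ) (x : ℂ) :
    ev (stepL u z c) x = (x - u) * ev c x - z := by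
  rw [stepL, ev_addL, ev_mulL]
  simp only [ev_cons, ev_nil]
  push_cast; ring

/-- the coefficient lists of the chain -/
def PL (cc : ℤ) (uL zL : List ℤ) : ℕ → List ℤ
  | 0 => [cc, 1]
  | k + 1 => stepL (uL.getD (k+1) 0) (zL.getD (k+1) 0) (PL cc uL zL k)

end Pool.Agent.X62.SR
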